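import Mathlib
import Pool.Agent.H30.Hedge.Defs
import Pool.Agent.H30.Hedge.Homog
import Pool.Agent.H81.HC.Stm
import Pool.Agent.H81.HB.Geo

/-!
# Hedgehogs: the final assembly, statements (stubs HD-*)
-/

open Set Filter Topology
open scoped ContDiff

namespace Pool.Agent.H81.HD

open Pool.Agent.H30.Hedge (H2 H3 V3 Homog Fold hedgehog SingularAt SmoothOnSphere)
open Pool.Agent.H81.HC (Sm D1 D2 front S_NF)
open Pool.Agent.H81.HB (gg Data S_GEO)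

noncomputable section

/-- the germ of `x_h` at the unit vector `u` is a cuspidal edge: there are a smooth regular
parametrisation `φ` of the sphere near `u`, `φ(0) = u`, and a local diffeomorphism `ψ` of `ℝ³` at
`x_h(u)` with `ψ (x_h (φ (s, t))) = (s, t ^ 2, t ^ 3)` near `(0, 0)` (`Sm` is smoothness in a
neighbourhood) -/
def CuspidalEdge (h : V3 → ℝ) (u : V3) : Prop :=
  ∃ (φ : ℝ × ℝ → V3) (ψ : V3 → ℝ × ℝ × ℝ),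
    Sm φ 0 ∧ φ 0 = u ∧ (∀ᶠ p in 𝓝 (0 : ℝ × ℝ), ‖φ p‖ = 1) ∧
    Function.Injective (fderiv ℝ φ 0) ∧
    Sm ψ (hedgehog h u) ∧ Function.Bijective (fderiv ℝ ψ (hedgehog h u)) ∧
    ∀ᶠ p in 𝓝 (0 : ℝ × ℝ), ψ (hedgehog h (φ p)) = (p.1, p.2 ^ 2, p.2 ^ 3)

/-- `CUSP`: folds are cuspidal edges -/
def S_CUSP : Prop :=
  ∀ H : V3 → ℝ, Homog H → (∀ x : V3, x ≠ 0 → Fold H x) → ∀ u : V3, ‖u‖ = 1 → SingularAt H u →
    CuspidalEdge H u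

/-- cyclic permutation of the coordinates -/
def cyc (x : V3) : V3 := !₂[x 1, x 2, x 0]

/-- the affine chart -/
def pt (y : ℝ × ℝ) : V3 := !₂[y.1, y.2, 1]

/-- the square -/
def KK : Set (ℝ × ℝ) := Icc (-1) 1 ×ˢ Icc (-1) 1

/-- `FACE`: by symmetry and homogeneity one face of the cube is enough -/
def S_FACE : Prop :=
  ∀ H : V3 → ℝ, Homog H → (∀ x, H (cyc x) = H x) →
    (∀ y ∈ KK, ∀ k, k ≠ 0 → (∀ v, H2 (fun z => H (pt z)) y k v = 0) →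
      H3 (fun z => H (pt z)) y k k k ≠ 0 ∧ ∃ v, H2 (fun z => H (pt z)) y v v ≠ 0) →
    ∀ x : V3, x ≠ 0 → Fold H x

/-- `HOM`: the perturbed function is homogeneous -/
def S_HOM : Prop :=
  ∀ (H F : V3 → ℝ) (G : ℝ → ℝ), Homog H → ContDiffOn ℝ ∞ F {0}ᶜ →
    (∀ t : ℝ, 0 < t → ∀ x, F (t • x) = F x) → (∀ x, F (-x) = -F x) → ContDiff ℝ ∞ G →
    (∀ s, G (-s) = -G s) → Homog (fun x => H x + ‖x‖ * G (F x))

/-! ### the chart quantities of `P / ρ ^ m` and `Q / ρ ^ (N / 2)`, `ρ = 1 + x ^ 2 + y ^ 2` -/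

section poly

variable (P Q : ℝ × ℝ → ℝ) (m N : ℕ) (y : ℝ × ℝ)

def rho : ℝ := 1 + y.1 ^ 2 + y.2 ^ 2

def a11 : ℝ := rho y ^ 2 * D1 (D1 P) y - 4 * m * y.1 * rho y * D1 P y +
  P y * (4 * m * (m + 1) * y.1 ^ 2 - 2 * m * rho y)

def a12 : ℝ := rho y ^ 2 * D2 (D1 P) y - 2 * m * rho y * (y.1 * D2 P y + y.2 * D1 P y) +
  P y * (4 * m * (m + 1) * y.1 * y.2)

def a22 : ℝ := rho y ^ 2 * D2 (D2 P) y - 4 * m * y.2 * rho y * D2 P y +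
  P y * (4 * m * (m + 1) * y.2 ^ 2 - 2 * m * rho y)

def g1 : ℝ := rho y * D1 Q y - N * y.1 * Q y

def g2 : ℝ := rho y * D2 Q y - N * y.2 * Q y

def q11 : ℝ := rho y ^ 2 * D1 (D1 Q) y - 2 * N * y.1 * rho y * D1 Q y +
  Q y * (N * (N + 2) * y.1 ^ 2 - N * rho y)

def q12 : ℝ := rho y ^ 2 * D2 (D1 Q) y - N * rho y * (y.1 * D2 Q y + y.2 * D1 Q y) +
  Q y * (N * (N + 2) * y.1 * y.2)

def q22 : ℝ := rho y ^ 2 * D2 (D2 Q) y - 2 * N * y.2 * rho y * D2 Q y +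
  Q y * (N * (N + 2) * y.2 ^ 2 - N * rho y)

def detA : ℝ := a11 P m y * a22 P m y - a12 P m y ^ 2

def detQ : ℝ := q11 Q N y * q22 Q N y - q12 Q N y ^ 2

def TTT : ℝ := a11 P m y * g2 Q N y ^ 2 - 2 * a12 P m y * g1 Q N y * g2 Q N y +
  a22 P m y * g1 Q N y ^ 2

end poly

/-- the certificate: polynomial inequalities on the square -/
structure Cert (P Q : ℝ × ℝ → ℝ) (m N : ℕ) (c0 : ℝ) : Prop where
  core : ∀ y ∈ KK, Q y ^ 2 ≤ c0 ^ 2 * rho y ^ N → detA P m y < 0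
  pos : ∀ y ∈ KK, 0 < Q y → c0 ^ 2 * rho y ^ N ≤ Q y ^ 2 → 0 < TTT P Q m N y ∨
    (0 < detA P m y ∧ 0 < a11 P m y ∧ (g1 Q N y ≠ 0 ∨ g2 Q N y ≠ 0 ∨ detQ Q N y ≠ 0))
  neg : ∀ y ∈ KK, Q y < 0 → c0 ^ 2 * rho y ^ N ≤ Q y ^ 2 → TTT P Q m N y < 0 ∨
    (0 < detA P m y ∧ a11 P m y < 0 ∧ (g1 Q N y ≠ 0 ∨ g2 Q N y ≠ 0 ∨ detQ Q N y ≠ 0))

/-- `POLY`: from the polynomial inequalities to the hypotheses of the ring insertion -/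
def S_POLY : Prop :=
  ∀ (P Q : ℝ × ℝ → ℝ) (m N : ℕ) (c0 : ℝ), ContDiff ℝ ∞ P → ContDiff ℝ ∞ Q → 0 < c0 →
    Cert P Q m N c0 →
    Data univ KK (fun y => P y / rho y ^ m) (fun y => Q y / √(rho y) ^ N)
      (fun y => √(rho y)) c0 ∧
    (∀ x ∈ KK, Q x / √(rho x) ^ N ≤ -c0 → ∀ t, t ≠ 0 →
      fderiv ℝ (fun y => Q y / √(rho y) ^ N) x t = 0 → H2 (fun y => P y / rho y ^ m) x t t < 0) ∧
    (∀ x ∈ KK, c0 ≤ |Q x / √(rho x) ^ N| → fderiv ℝ (fun y => Q y / √(rho y) ^ N) x = 0 →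
      ∀ k, k ≠ 0 → ∃ v, H2 (fun y => Q y / √(rho y) ^ N) x k v ≠ 0)

/-- `MAIN`: the final statement from the certificate for polynomials `P3`, `Q3` in three
variables -/
def S_MAIN : Prop :=
  ∀ (P3 Q3 : V3 → ℝ) (m N : ℕ) (c0 : ℝ), ContDiff ℝ ∞ P3 → ContDiff ℝ ∞ Q3 → Odd N → 0 < c0 →
    (∀ (t : ℝ) x, P3 (t • x) = t ^ (2 * m + 1) * P3 x) → (∀ (t : ℝ) x, Q3 (t • x) = t ^ N * Q3 x) →
    (∀ x, P3 (cyc x) = P3 x) → (∀ x, Q3 (cyc x) = Q3 x) →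
    Cert (fun y => P3 (pt y)) (fun y => Q3 (pt y)) m N c0 →
    ∃ h : V3 → ℝ, SmoothOnSphere h ∧ (∀ u, h (-u) = -h u) ∧
      ∀ u, ‖u‖ = 1 → SingularAt h u → CuspidalEdge h u

end

end Pool.Agent.H81.HD
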