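import Pool.Agent.H81.HC.All
import Pool.Agent.H81.HB.OneD
import Pool.Agent.H81.HB.T.CST
import Pool.Agent.H81.HB.T.EST
import Pool.Agent.H81.HB.T.GEO
import Pool.Agent.H81.HB.T.LEV
import Pool.Agent.H81.HB.T.MORSE
import Pool.Agent.H81.HB.T.SIDE
import Pool.Agent.H81.HD.T.CUSP
import Pool.Agent.H81.HD.T.FACE
import Pool.Agent.H81.HD.T.HOM
import Pool.Agent.H81.HD.T.MAIN

/-! # Everything except the certificate -/

namespace Pool.Agent.H81.HD

theorem geo : HB.S_GEO :=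
  HB.T.GEO.main HB.oneD (HB.T.SIDE.main HB.T.CST.main HB.T.LEV.main HB.T.EST.main)

theorem all (hPOLY : S_POLY) : S_MAIN :=
  T.MAIN.main hPOLY HB.T.MORSE.main geo T.HOM.main T.FACE.main (T.CUSP.main HC.nf)

end Pool.Agent.H81.HD
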