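import Pool.Agent.H81.HD.All
import Pool.Agent.H81.HD.T.POLY

/-! # Everything except the certificate -/

namespace Pool.Agent.H81.HD

theorem main : S_MAIN := all T.POLY.main

end Pool.Agent.H81.HD
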